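import Pool.Agent.Helper17.PP.GoalsC3

/-!
# Project PP, packet C_SM1
-/

namespace Pool.Agent.Helper29.PP

open Finset Pool.Agent.Helper17.PP

theorem c_sm1 : C_SM1 := by
  intro K ε hK hε
  have hK0 : (0 : ℝ) < K := by exact_mod_cast hK
  set r : ℝ := (2 : ℝ) ^ (-(1 / (2 * (K : ℝ)))) with hr
  have hr0 : 0 < r := Real.rpow_pos_of_pos two_pos _
  have hr1 : r < 1 := by
    apply Real.rpow_lt_one_of_one_lt_of_neg one_lt_two
    have : 0 < 1 / (2 * (K : ℝ)) := by positivity
    linarith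
  have hrn : ∀ n : ℕ, r ^ n = (2 : ℝ) ^ (-((n : ℝ) / (2 * K))) := by
    intro n
    rw [hr, ← Real.rpow_natCast, ← Real.rpow_mul two_pos.le]
    congr 1
    ring
  -- the bound for `(i+1)^K r^i`
  obtain ⟨C, hC⟩ : ∃ C : ℝ, ∀ i : ℕ, ((i : ℝ) + 1) ^ K * r ^ i ≤ C := by
    have h1 := tendsto_pow_const_mul_const_pow_of_lt_one K hr0.le hr1
    obtain ⟨C, hC⟩ := h1.bddAbove_range
    refine ⟨C / r, fun i ↦ ?_⟩
    rw [le_div_iff₀ hr0]
    have h2 := hC (Set.mem_range_self (i + 1))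
    push_cast at h2
    calc ((i : ℝ) + 1) ^ K * r ^ i * r = ((i : ℝ) + 1) ^ K * r ^ (i + 1) := by ring
      _ ≤ C := h2
  have hC0 : 0 ≤ C := le_trans (by positivity) (hC 0)
  have hmin1 : ∀ i j : ℕ, i ≤ j → (2 : ℝ) ^ (-(min i j : ℝ) / K) = r ^ i * r ^ i := by
    intro i j hij
    rw [min_eq_left (by exact_mod_cast hij), hrn, ← Real.rpow_add two_pos]
    congr 1
    field_simp
    ring
  have hmin2 : ∀ i j : ℕ, j ≤ i → (2 : ℝ) ^ (-(min i j : ℝ) / K) = r ^ j * r ^ j := by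
    intro i j hij
    rw [min_eq_right (by exact_mod_cast hij), hrn, ← Real.rpow_add two_pos]
    congr 1
    field_simp
    ring
  -- the inner sum
  have hin : ∀ j : ℕ, 1 ≤ j → ∑ i ∈ Ico (ti (4 * K) j) (tb (2 * K * (K + 1)) j),
      ((i : ℝ) + 1) ^ K * (2 : ℝ) ^ (-(min i j : ℝ) / K) ≤
        4 * C / (1 - r) * (1 / (j : ℝ) ^ 2) + r ^ j := by
    intro j hj
    have hj0 : (0 : ℝ) < j := by exact_mod_cast hj
    set T := tb (2 * K * (K + 1)) j with hT
    have hterm : ∀ i ∈ Ico (ti (4 * K) j) T,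
        ((i : ℝ) + 1) ^ K * (2 : ℝ) ^ (-(min i j : ℝ) / K) ≤
          C * r ^ i + (T : ℝ) ^ K * (r ^ j * r ^ j) := by
      intro i hi
      rw [mem_Ico] at hi
      rcases le_total i j with h | h
      · rw [hmin1 i j h]
        have h1 : ((i : ℝ) + 1) ^ K * (r ^ i * r ^ i) ≤ C * r ^ i := by
          rw [← mul_assoc]
          exact mul_le_mul_of_nonneg_right (hC i) (by positivity)
        have h2 : 0 ≤ (T : ℝ) ^ K * (r ^ j * r ^ j) := by positivity
        linarith
      · rw [hmin2 i j h]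
        have h1 : ((i : ℝ) + 1) ^ K * (r ^ j * r ^ j) ≤ (T : ℝ) ^ K * (r ^ j * r ^ j) := by
          refine mul_le_mul_of_nonneg_right ?_ (by positivity)
          refine pow_le_pow_left₀ (by positivity) ?_ K
          exact_mod_cast hi.2
        have h2 : 0 ≤ C * r ^ i := by positivity
        linarith
    refine (Finset.sum_le_sum hterm).trans ?_
    rw [Finset.sum_add_distrib]
    refine add_le_add ?_ ?_
    · rw [← Finset.mul_sum]
      have h1 : ∑ i ∈ Ico (ti (4 * K) j) T, r ^ i ≤ r ^ (ti (4 * K) j) / (1 - r) := by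
        have h2 : ∑ i ∈ Ico (ti (4 * K) j) T, r ^ i ≤
            ∑' i : ℕ, r ^ (ti (4 * K) j) * r ^ i := by
          have h3 : ∑ i ∈ Ico (ti (4 * K) j) T, r ^ i =
              ∑ i ∈ range (T - ti (4 * K) j), r ^ (ti (4 * K) j) * r ^ i := by
            rw [Finset.sum_Ico_eq_sum_range]
            exact Finset.sum_congr rfl fun i _ ↦ pow_add _ _ _
          rw [h3]
          exact Summable.sum_le_tsum _ (fun i _ ↦ by positivity)
            ((summable_geometric_of_lt_one hr0.le hr1).mul_left _)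
        rw [tsum_mul_left, tsum_geometric_of_lt_one hr0.le hr1] at h2
        rwa [div_eq_mul_inv]
      have h4 : r ^ (ti (4 * K) j) ≤ 4 / (j : ℝ) ^ 2 := by
        rw [hrn]
        have h5 : -(((ti (4 * K) j : ℕ) : ℝ) / (2 * K)) = -(2 * (Nat.log 2 j : ℝ)) := by
          unfold ti
          push_cast
          field_simp
          ring
        rw [h5, Real.rpow_neg two_pos.le]
        have h6 : (2 : ℝ) ^ (2 * (Nat.log 2 j : ℝ)) = ((2 : ℝ) ^ (Nat.log 2 j)) ^ 2 := by
          rw [← Real.rpow_natCast, ← Real.rpow_natCast, ← Real.rpow_mul two_pos.le]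
          congr 1
          push_cast
          ring
        rw [h6]
        have h7 : (j : ℝ) / 2 ≤ (2 : ℝ) ^ (Nat.log 2 j) := by
          have h8 : j < 2 ^ (Nat.log 2 j + 1) := Nat.lt_pow_succ_log_self one_lt_two j
          have h9 : (j : ℝ) < 2 ^ (Nat.log 2 j + 1) := by exact_mod_cast h8
          rw [pow_succ] at h9
          linarith
        rw [← one_div, div_le_div_iff₀ (by positivity) (by positivity)]
        have h10 : ((j : ℝ) / 2) ^ 2 ≤ ((2 : ℝ) ^ (Nat.log 2 j)) ^ 2 :=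
          pow_le_pow_left₀ (by positivity) h7 2
        nlinarith
      have h1r : 0 < 1 - r := by linarith
      calc C * ∑ i ∈ Ico (ti (4 * K) j) T, r ^ i ≤ C * (r ^ (ti (4 * K) j) / (1 - r)) :=
            mul_le_mul_of_nonneg_left h1 hC0
        _ ≤ C * (4 / (j : ℝ) ^ 2 / (1 - r)) := by gcongr
        _ = _ := by field_simp
    · rw [Finset.sum_const, nsmul_eq_mul]
      have h1 : (((Ico (ti (4 * K) j) T).card : ℕ) : ℝ) ≤ T := by
        rw [Nat.card_Ico]
        exact_mod_cast Nat.sub_le _ _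
      have h2 : (T : ℝ) * (T : ℝ) ^ K ≤ (2 : ℝ) ^ ((j : ℝ) / (2 * K)) := by
        have h3 : (T : ℝ) * (T : ℝ) ^ K = (2 : ℝ) ^ (((K : ℝ) + 1) * ((j / (2 * K * (K + 1)) : ℕ) : ℝ)) := by
          rw [hT]
          unfold tb
          push_cast
          rw [← pow_succ', ← pow_mul, ← Real.rpow_natCast]
          congr 1
          push_cast
          ring
        rw [h3]
        apply Real.rpow_le_rpow_of_exponent_le one_le_two
        have h4 : ((j / (2 * K * (K + 1)) : ℕ) : ℝ) ≤ (j : ℝ) / ((2 * K * (K + 1) : ℕ) : ℝ) :=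
          Nat.cast_div_le
        calc ((K : ℝ) + 1) * ((j / (2 * K * (K + 1)) : ℕ) : ℝ)
            ≤ ((K : ℝ) + 1) * ((j : ℝ) / ((2 * K * (K + 1) : ℕ) : ℝ)) := by gcongr
          _ = (j : ℝ) / (2 * K) := by
            push_cast
            field_simp
      have h5 : (2 : ℝ) ^ ((j : ℝ) / (2 * K)) * r ^ j = 1 := by
        rw [hrn, ← Real.rpow_add two_pos]
        simp
      calc (((Ico (ti (4 * K) j) T).card : ℕ) : ℝ) * ((T : ℝ) ^ K * (r ^ j * r ^ j))
          ≤ (T : ℝ) * ((T : ℝ) ^ K * (r ^ j * r ^ j)) := by gcongr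
        _ = ((T : ℝ) * (T : ℝ) ^ K) * r ^ j * r ^ j := by ring
        _ ≤ (2 : ℝ) ^ ((j : ℝ) / (2 * K)) * r ^ j * r ^ j := by gcongr
        _ = r ^ j := by rw [h5, one_mul]
  -- summability
  have hsum : Summable fun j : ℕ ↦ 4 * C / (1 - r) * (1 / (j : ℝ) ^ 2) + r ^ j :=
    ((Real.summable_one_div_nat_pow.2 (by norm_num)).mul_left _).add
      (summable_geometric_of_lt_one hr0.le hr1)
  obtain ⟨s, hs⟩ := summable_iff_vanishing_norm.1 hsum ε hε
  refine ⟨max 1 (s.sup id + 1), fun j₀ hj₀ J ↦ ?_⟩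
  have hdis : Disjoint (Ico j₀ J) s := by
    rw [Finset.disjoint_left]
    intro j hj hjs
    rw [mem_Ico] at hj
    have h1 : j ≤ s.sup id := Finset.le_sup (f := id) hjs
    have h2 := le_trans (le_max_right 1 (s.sup id + 1)) hj₀
    omega
  refine (Finset.sum_le_sum fun j hj ↦ hin j ?_).trans ?_
  · rw [mem_Ico] at hj
    exact le_trans (le_trans (le_max_left 1 _) hj₀) hj.1
  · exact (le_abs_self _).trans (hs _ hdis).le

end Pool.Agent.Helper29.PP
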