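import Pool.Agent.Helper17.PP.GoalsC3

/-!
# Project PP, packet C_STJ
-/

namespace Pool.Agent.Helper29.PP

open Finset Pool.Agent.Helper17.PP

open Classical in
/-- The splitting of a double sum over `(D, χ)`. -/
theorem split_sum {B Ch : Type} [Fintype Ch] (s : Finset (Finset B)) (h0 : ∅ ∈ s)
    (lo : Finset B → ℕ) (m n : ℕ) (hm : lo ∅ < m) (hn : ∀ D ∈ s, lo D < n)
    (one : Ch) (F : Finset B → Ch → ℂ) :
    ∑ D ∈ s, ∑ χ : Ch, F D χ = F ∅ one +
      ∑ D ∈ s with lo D < m, ∑ χ : Ch with (D.Nonempty ∨ χ ≠ one), F D χ +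
      ∑ i ∈ Ico m n, ∑ D ∈ s with lo D = i, ∑ χ : Ch, F D χ := by
  rw [← Finset.sum_filter_add_sum_filter_not s (fun D ↦ lo D < m)]
  congr 1
  · have h1 : ∀ D ∈ s.filter (fun D ↦ lo D < m), ∑ χ : Ch, F D χ =
        (if D = ∅ then F ∅ one else 0) +
          ∑ χ : Ch with (D.Nonempty ∨ χ ≠ one), F D χ := by
      intro D _
      rw [← Finset.sum_filter_add_sum_filter_not univ (fun χ ↦ D.Nonempty ∨ χ ≠ one), add_comm]
      congr 1
      split_ifs with hD
      · subst hD
        rw [Finset.sum_eq_single one]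
        · intro b hb hb'
          simp only [mem_filter, mem_univ, true_and, not_or, not_not] at hb
          exact absurd hb.2 hb'
        · intro h
          simp at h
      · apply Finset.sum_eq_zero
        intro χ hχ
        simp only [mem_filter, mem_univ, true_and, not_or, not_not] at hχ
        exact absurd (Finset.not_nonempty_iff_eq_empty.1 hχ.1) hD
    rw [Finset.sum_congr rfl h1, Finset.sum_add_distrib]
    congr 1
    rw [Finset.sum_ite_eq']
    rw [if_pos]
    simp [h0, hm]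
  · rw [← Finset.sum_fiberwise_of_maps_to (s := s.filter (fun D ↦ ¬ lo D < m)) (t := Ico m n)
      (g := lo)]
    · apply Finset.sum_congr rfl
      intro i hi
      apply Finset.sum_congr _ (fun _ _ ↦ rfl)
      ext D
      simp only [mem_filter, mem_Ico] at hi ⊢
      constructor
      · rintro ⟨⟨h1, h2⟩, h3⟩
        exact ⟨h1, h3⟩
      · rintro ⟨h1, h3⟩
        exact ⟨⟨h1, by omega⟩, h3⟩
    · intro D hD
      simp only [mem_filter, mem_Ico, not_lt] at hD ⊢
      exact ⟨hD.2, hn D hD.1⟩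

theorem re_swap {B I : Type} (s : Finset (Finset B)) (t : Finset B → Finset B) (r : Finset I)
    (G : Finset B → B → I → ℂ) :
    ∑ b ∈ s, ∑ q ∈ t b, ∑ i ∈ r, (G b q i).re = ∑ i ∈ r, (∑ b ∈ s, ∑ q ∈ t b, G b q i).re := by
  simp only [Complex.re_sum]
  rw [Finset.sum_comm]
  exact Finset.sum_congr rfl fun b _ ↦ Finset.sum_comm

open Classical in
theorem c_stj (hort : C_ORT) (hpmn : C_PMN) : C_STJ := by
  intro p _ B B₀ k U Λ C _ _ _ _ _ _ _ _ _ _ S ψ hψ E A j X P hti hj hth hX
  have key : ∀ b ∈ P.powerset.filter (fun b ↦ S.Fam b),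
      ∀ q ∈ b.filter (fun q ↦ S.Wt E b q ∧ S.bl q = j),
      (S.cnt E b q : ℝ) * Real.exp (-(S.nm b / X)) ≤
        (Fintype.card U / Fintype.card Λ : ℝ) * ((Fintype.card k : ℝ) - 1) *
          ((1 / Fintype.card k : ℝ) ^ (S.rt E b q).card * Real.exp (-(S.nm b / X))) +
        ∑ D ∈ (S.rg E b q).powerset with Nat.log 2 (S.nm D) < ti A j,
          ∑ χ : AddChar Λ ℂ with (D.Nonempty ∨ χ ≠ 1),
            ‖S.part ψ E P b q D χ‖ * Real.exp (-(S.nm b / X)) +
        ∑ i ∈ Ico (ti A j) (tb E j),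
          (∑ D ∈ (S.rg E b q).powerset with Nat.log 2 (S.nm D) = i, ∑ χ : AddChar Λ ℂ,
            S.part ψ E P b q D χ * (Real.exp (-(S.nm b / X)) : ℂ)).re := by
    intro b hb q hq
    simp only [mem_filter, mem_powerset] at hb hq
    obtain ⟨hbP, hbF⟩ := hb
    obtain ⟨hqb, hW, hbl⟩ := hq
    have h1 := hort p B B₀ k U Λ C S ψ hψ E P b q hbP hqb
    have h2 := hpmn p B B₀ k U Λ C S ψ E P b q hbP hqb (by rw [hbl]; exact hth)
    have hnm : ∀ D : Finset B, S.nm D ≠ 0 := by
      intro D
      unfold Sys.nm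
      rw [Finset.prod_ne_zero_iff]
      intro q' _
      have := S.two_le q'
      omega
    have h3 := split_sum (S.rg E b q).powerset (by simp) (fun D ↦ Nat.log 2 (S.nm D))
      (ti A j) (tb E j) (by simp [Sys.nm]; omega) (by
        intro D hD
        rw [mem_powerset] at hD
        have h4 : S.nm D < 2 ^ tb E (S.bl q) := by
          apply hW.small D
          · intro q' hq'
            have := hD hq'
            simp only [Sys.rg, mem_filter, mem_erase] at this
            exact this.1.2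
          · intro hqD
            have := hD hqD
            simp only [Sys.rg, mem_filter, mem_erase] at this
            exact this.1.1 rfl
          · intro q' hq'
            have := hD hq'
            simp only [Sys.rg, mem_filter, mem_erase] at this
            exact this.2.2.2
        rw [hbl] at h4
        exact Nat.log_lt_of_lt_pow (hnm D) h4) (1 : AddChar Λ ℂ) (S.part ψ E P b q)
    rw [← h1, h2] at h3
    set e : ℝ := Real.exp (-(S.nm b / X)) with he
    have hepos : 0 ≤ e := (Real.exp_pos _).le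
    have h5 : (S.cnt E b q : ℝ) = (Fintype.card U / Fintype.card Λ : ℝ) *
        ((Fintype.card k : ℝ) - 1) * (1 / Fintype.card k : ℝ) ^ (S.rt E b q).card +
        (∑ D ∈ (S.rg E b q).powerset with Nat.log 2 (S.nm D) < ti A j,
          ∑ χ : AddChar Λ ℂ with (D.Nonempty ∨ χ ≠ 1), S.part ψ E P b q D χ).re +
        ∑ i ∈ Ico (ti A j) (tb E j), (∑ D ∈ (S.rg E b q).powerset with Nat.log 2 (S.nm D) = i,
          ∑ χ : AddChar Λ ℂ, S.part ψ E P b q D χ).re := by
      have h6 := congrArg Complex.re h3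
      rw [Complex.add_re, Complex.add_re, Complex.natCast_re] at h6
      rw [h6]
      refine congrArg₂ (· + ·) (congrArg₂ (· + ·) ?_ rfl) (Complex.re_sum _ _)
      have h7 : ((Fintype.card U / Fintype.card Λ : ℂ) * ((Fintype.card k : ℂ) - 1) *
          (1 / Fintype.card k : ℂ) ^ (S.rt E b q).card) =
          (((Fintype.card U / Fintype.card Λ : ℝ) * ((Fintype.card k : ℝ) - 1) *
          (1 / Fintype.card k : ℝ) ^ (S.rt E b q).card : ℝ) : ℂ) := by
        push_cast
        ring
      rw [h7, Complex.ofReal_re]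
    rw [h5, add_mul, add_mul, Finset.sum_mul]
    refine add_le_add (add_le_add (le_of_eq (by ring)) ?_) (le_of_eq ?_)
    · calc (∑ D ∈ (S.rg E b q).powerset with Nat.log 2 (S.nm D) < ti A j,
          ∑ χ : AddChar Λ ℂ with (D.Nonempty ∨ χ ≠ 1), S.part ψ E P b q D χ).re * e
          ≤ ‖∑ D ∈ (S.rg E b q).powerset with Nat.log 2 (S.nm D) < ti A j,
          ∑ χ : AddChar Λ ℂ with (D.Nonempty ∨ χ ≠ 1), S.part ψ E P b q D χ‖ * e :=
            mul_le_mul_of_nonneg_right (Complex.re_le_norm _) hepos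
        _ ≤ (∑ D ∈ (S.rg E b q).powerset with Nat.log 2 (S.nm D) < ti A j,
          ∑ χ : AddChar Λ ℂ with (D.Nonempty ∨ χ ≠ 1), ‖S.part ψ E P b q D χ‖) * e := by
            refine mul_le_mul_of_nonneg_right ?_ hepos
            refine (norm_sum_le _ _).trans (Finset.sum_le_sum fun D _ ↦ norm_sum_le _ _)
        _ = _ := by
            rw [Finset.sum_mul]
            exact Finset.sum_congr rfl fun D _ ↦ Finset.sum_mul _ _ _
    · refine Finset.sum_congr rfl fun i _ ↦ ?_
      have h8 : ∑ D ∈ (S.rg E b q).powerset with Nat.log 2 (S.nm D) = i, ∑ χ : AddChar Λ ℂ,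
            S.part ψ E P b q D χ * (e : ℂ) =
          (∑ D ∈ (S.rg E b q).powerset with Nat.log 2 (S.nm D) = i, ∑ χ : AddChar Λ ℂ,
            S.part ψ E P b q D χ) * (e : ℂ) := by
        rw [Finset.sum_mul]
        exact Finset.sum_congr rfl fun D _ ↦ (Finset.sum_mul _ _ _).symm
      rw [h8, Complex.re_mul_ofReal]
  refine (Finset.sum_le_sum fun b hb ↦ Finset.sum_le_sum fun q hq ↦ key b hb q hq).trans ?_
  simp only [Finset.sum_add_distrib]
  refine add_le_add (add_le_add (le_of_eq ?_) le_rfl) ?_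
  · rw [Finset.mul_sum]
    exact Finset.sum_congr rfl fun b _ ↦ (Finset.mul_sum _ _ _).symm
  · have h9 : ∑ b ∈ P.powerset with S.Fam b, ∑ q ∈ b with (S.Wt E b q ∧ S.bl q = j),
        ∑ i ∈ Ico (ti A j) (tb E j),
          (∑ D ∈ (S.rg E b q).powerset with Nat.log 2 (S.nm D) = i, ∑ χ : AddChar Λ ℂ,
            S.part ψ E P b q D χ * (Real.exp (-(S.nm b / X)) : ℂ)).re =
        ∑ i ∈ Ico (ti A j) (tb E j),
          (∑ b ∈ P.powerset with S.Fam b, ∑ q ∈ b with (S.Wt E b q ∧ S.bl q = j),
            ∑ D ∈ (S.rg E b q).powerset with Nat.log 2 (S.nm D) = i, ∑ χ : AddChar Λ ℂ,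
              S.part ψ E P b q D χ * (Real.exp (-(S.nm b / X)) : ℂ)).re := by
      exact re_swap _ _ _ _
    rw [h9]
    exact Finset.sum_le_sum fun i _ ↦ Complex.re_le_norm _

end Pool.Agent.Helper29.PP
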